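import Pool.Agent.H28.HB.Targets
import Pool.Agent.H25.ES.CHA

/-!
# Theorem (H0), MP_c59857_nt, row CHD: all levels, changing sequences
-/

set_option autoImplicit false

open Finset Pool.Agent.H18.MR Pool.Agent.H93.DE Pool.Agent.H6.N4D Pool.Agent.H93
  Pool.Agent.H93.ES Pool.Agent.H25.ES Pool.Agent.H22.GS

namespace Pool.Agent.H28.HB

theorem hc_nonnegA (hU : T_UNI) {γ : Type} [Fintype γ] [DecidableEq γ] (N L M : ℕ) [NeZero N]
    (x : ZMod N → γ) (hM : 0 < M) (hMN : M ∣ N) : 0 ≤ hc x L M := by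
  have hne : M ≠ 0 := hM.ne'
  have : NeZero M := ⟨hne⟩
  unfold hc
  rw [dif_neg hne]
  have h1 := (hU.2 N M hMN).2
  have h2 := ent_comp_le (unif N) (fun n => (wd x L n, rs N M n)) Prod.snd
  simp only at h2
  rw [h1] at h2
  linarith

theorem hc_le_entA (hU : T_UNI) {γ : Type} [Fintype γ] [DecidableEq γ] (N L M : ℕ) [NeZero N]
    (x : ZMod N → γ) (hM : 0 < M) (hMN : M ∣ N) :
    hc x L M ≤ ent (unif N) (fun n => wd x L n) := by
  have hne : M ≠ 0 := hM.ne'
  have : NeZero M := ⟨hne⟩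
  unfold hc
  rw [dif_neg hne]
  have h1 := (hU.2 N M hMN).2
  have h2 := Pool.Agent.H81.DE.mi_nonneg' (unif N) (fun n => wd x L n) (fun n => rs N M n)
  unfold mi at h2
  rw [h1] at h2
  linarith

theorem pf_CHD (hU : T_UNI) (hM : T_MNTg) (hL : T_LEVg) (hP : T_STPg) : T_CHD := by
  intro c N K _ γ _ _ T w x h0 hw hN hstep
  have h0 : 10 ^ 5 ≤ w 0 ∧ 8 * c ≤ w 0 := by constructor <;> omega
  have hent : 0 ≤ ent (unif N) (fun n => wd (x 0) (2 ^ (w 0 / 400)) n) / 2 ^ (w 0 / 400) :=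
    div_nonneg (ent_nonneg _ _) (by positivity)
  have h1 : ∀ j, j < K → 10 ^ 5 ≤ w j ∧ 8 * c ≤ w j := by
    intro j
    induction j with
    | zero => intro _; exact h0
    | succ j ih =>
      intro hj
      have h2 := ih (by omega)
      have h3 := hw j hj
      constructor <;> omega
  obtain ⟨H, hH⟩ : ∃ H : ℕ → ℝ, ∀ j, H j =
      hc (x j) (2 ^ (w j / 400)) (primorial (2 ^ (w j / 400))) / 2 ^ (w j / 400) :=
    ⟨fun j => hc (x j) (2 ^ (w j / 400)) (primorial (2 ^ (w j / 400))) / 2 ^ (w j / 400),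
      fun _ => rfl⟩
  have hNa : ∀ j, j < K → primorial (2 ^ (w j / 400)) ∣ N := by
    intro j hj
    refine (Pool.Agent.H81.DE.prim_dvd (Nat.pow_le_pow_right (by norm_num) ?_)).trans (hN j hj)
    omega
  have hlev : ∀ j, j < K → infA c (x j) (w j) ≤ H j -
      hc (x j) (2 ^ w j) (primorial (2 ^ (w j / 200))) / 2 ^ w j +
        (1 / 2) ^ (w j / 2) * Real.log (Fintype.card (γ j)) := by
    intro j hj
    rw [hH]
    exact hL (γ j) c N (w j) (x j) (h1 j hj).1 (h1 j hj).2 (hN j hj)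
  have hnext : ∀ j, j + 1 < K → H (j + 1) ≤
      hc (x j) (2 ^ w j) (primorial (2 ^ (w j / 200))) / 2 ^ w j +
        Real.log (T j) / 2 ^ (w (j + 1) / 400) := by
    intro j hj
    have h2 := hw j hj
    have h3 : w j ≤ w (j + 1) / 400 := by omega
    have h4 := hM (γ j) N (2 ^ (w (j + 1) / 400 - w j)) (2 ^ w j) (primorial (2 ^ (w j / 200)))
      (primorial (2 ^ (w (j + 1) / 400))) (x j) (primorial_pos _)
      (Pool.Agent.H81.DE.prim_dvd (Nat.pow_le_pow_right (by norm_num) (by omega)))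
      (hNa (j + 1) hj)
    have e1 : 2 ^ (w (j + 1) / 400 - w j) * 2 ^ w j = 2 ^ (w (j + 1) / 400) := by
      rw [← pow_add]
      congr 1
      omega
    have e2 : (2 : ℝ) ^ (w (j + 1) / 400) = 2 ^ (w (j + 1) / 400 - w j) * 2 ^ w j := by
      rw [← pow_add]
      congr 1
      omega
    rw [e1] at h4
    push_cast at h4
    obtain ⟨l, F, hF⟩ := hstep j hj
    have h5 := hP (γ j) (γ (j + 1)) N (2 ^ (w (j + 1) / 400)) (primorial (2 ^ (w (j + 1) / 400)))
      (T j) (x j) (x (j + 1)) l F (primorial_pos _) (hNa (j + 1) hj) hF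
    have h6 : H (j + 1) ≤ (hc (x j) (2 ^ (w (j + 1) / 400))
        (primorial (2 ^ (w (j + 1) / 400))) + Real.log (T j)) / 2 ^ (w (j + 1) / 400) := by
      rw [hH]
      exact div_le_div_of_nonneg_right h5 (by positivity)
    refine h6.trans ?_
    rw [add_div]
    have h7 : hc (x j) (2 ^ (w (j + 1) / 400)) (primorial (2 ^ (w (j + 1) / 400))) /
        2 ^ (w (j + 1) / 400) ≤ hc (x j) (2 ^ w j) (primorial (2 ^ (w j / 200))) / 2 ^ w j := by
      rw [e2, div_le_div_iff₀ (by positivity) (by positivity)]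
      have h5 : (0 : ℝ) < 2 ^ w j := by positivity
      nlinarith
    linarith
  have hsum : ∀ n, n < K → ∑ j ∈ range n, infA c (x j) (w j) ≤
      H 0 - H n + ∑ j ∈ range n, Real.log (T j) / 2 ^ (w (j + 1) / 400) +
        ∑ j ∈ range n, (1 / 2 : ℝ) ^ (w j / 2) * Real.log (Fintype.card (γ j)) := by
    intro n
    induction n with
    | zero => intro _; simp
    | succ n ih =>
      intro hn
      rw [Finset.sum_range_succ, Finset.sum_range_succ, Finset.sum_range_succ]
      have h2 := ih (by omega)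
      have h3 := hlev n (by omega)
      have h4 := hnext n hn
      linarith
  rcases Nat.eq_zero_or_pos K with hK | hK
  · subst hK
    simp only [Finset.range_zero, Finset.sum_empty, Nat.zero_sub]
    linarith
  · obtain ⟨n, rfl⟩ : ∃ n, K = n + 1 := ⟨K - 1, by omega⟩
    have h2 := hsum n (by omega)
    have h3 := hlev n (by omega)
    have h4 : 0 ≤ hc (x n) (2 ^ w n) (primorial (2 ^ (w n / 200))) / 2 ^ w n :=
      div_nonneg (hc_nonnegA hU N _ _ (x n) (primorial_pos _) (hN n (by omega))) (by positivity)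
    have h5 : H 0 ≤ ent (unif N) (fun n => wd (x 0) (2 ^ (w 0 / 400)) n) /
        2 ^ (w 0 / 400) := by
      rw [hH]
      exact div_le_div_of_nonneg_right
        (hc_le_entA hU N _ _ (x 0) (primorial_pos _) (hNa 0 (by omega))) (by positivity)
    rw [Nat.add_sub_cancel, Finset.sum_range_succ,
      Finset.sum_range_succ (fun j => (1 / 2 : ℝ) ^ (w j / 2) * Real.log (Fintype.card (γ j)))]
    linarith

end Pool.Agent.H28.HB
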