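import Pool.Agent.H28.HB.Targets
import Pool.Agent.H25.ES.CHA

/-!
# Theorem (H0), MP_c59857_nt, rows DPI and STPg: data processing and one step of the sequence
-/

set_option autoImplicit false

open Finset Pool.Agent.H18.MR Pool.Agent.H93.DE Pool.Agent.H6.N4D Pool.Agent.H93
  Pool.Agent.H93.ES Pool.Agent.H25.ES Pool.Agent.H22.GS

namespace Pool.Agent.H28.HB

/-- data processing for the mutual information -/
theorem mi_comp_le {Ω α β γ : Type} [Fintype α] [DecidableEq α] [Fintype β] [DecidableEq β]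
    [Fintype γ] [DecidableEq γ] (μ : FAP Ω) (X : Ω → α) (Y : Ω → β) (g : α → γ) :
    mi μ (fun ω => g (X ω)) Y ≤ mi μ X Y := by
  have h := ent_submod μ X Y (fun ω => g (X ω))
  have h1 : ent μ (fun ω => (X ω, Y ω, g (X ω))) = ent μ (fun ω => (X ω, Y ω)) :=
    ent_congr_inj μ _ _ (fun t => (t.1, t.2.1)) (fun t => (t.1, t.2, g t.1)) (fun _ => rfl)
      (fun _ => rfl)
  have h2 : ent μ (fun ω => (X ω, g (X ω))) = ent μ X :=
    ent_congr_inj μ _ _ (fun t => t.1) (fun t => (t, g t)) (fun _ => rfl) (fun _ => rfl)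
  have h3 : ent μ (fun ω => (Y ω, g (X ω))) = ent μ (fun ω => (g (X ω), Y ω)) :=
    ent_congr_inj μ _ _ (fun t => (t.2, t.1)) (fun t => (t.2, t.1)) (fun _ => rfl)
      (fun _ => rfl)
  unfold mi
  rw [h1, h2, h3] at h
  linarith

theorem info_comp_le {γ δ : Type} [Fintype γ] [DecidableEq γ] [Fintype δ] [DecidableEq δ]
    {N : ℕ} [NeZero N] (x : ZMod N → γ) (g : γ → δ) (L M P : ℕ) :
    info (fun n => g (x n)) L M P ≤ info x L M P := by
  unfold info
  split_ifs with h h'
  · exact le_rfl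
  · exact le_rfl
  · haveI : NeZero M := ⟨h⟩
    haveI : NeZero P := ⟨h'⟩
    exact mi_comp_le (unif N) (fun n => (wd x L n, rs N M n)) (fun n => rs N P n)
      (fun t => ((fun i => g (t.1 i) : Fin L → δ), t.2))

theorem pf_DPI : T_DPI := by
  intro γ _ _ c N w _ x φ
  unfold infT infA
  refine sum_le_sum fun m _ => ?_
  refine div_le_div_of_nonneg_right (avE_mono fun e => ?_) (by positivity)
  exact info_comp_le (tupA x (pos e)) (fun t : Fin (2 ^ rhoT c w) → γ => fun r => φ (t r)) _ _ _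

theorem pf_STPg : T_STPg := by
  intro γ δ _ _ _ _ N L M T _ x y l F hM hMN hF
  haveI : NeZero M := ⟨hM.ne'⟩
  have hT : 0 < T := lt_of_le_of_lt (Nat.zero_le _) (l 0).2
  haveI : NeZero T := ⟨hT.ne'⟩
  have e1 : hc y L M = ent (unif N) (fun n => (wd y L n, rs N M n)) - Real.log M := by
    unfold hc
    rw [dif_neg hM.ne']
  have e2 : hc x L M = ent (unif N) (fun n => (wd x L n, rs N M n)) - Real.log M := by
    unfold hc
    rw [dif_neg hM.ne']
  have h1 := ent_comp_le (unif N) (fun n => ((wd x L n, rs N M n), l n))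
    (fun t => ((F t.1.1 t.2 : Fin L → δ), t.1.2))
  have h2 : (fun n => ((F ((wd x L n, rs N M n), l n).1.1 ((wd x L n, rs N M n), l n).2 :
      Fin L → δ), ((wd x L n, rs N M n), l n).1.2)) = fun n => (wd y L n, rs N M n) := by
    funext n
    simp only [hF n]
  rw [h2] at h1
  have h3 := Pool.Agent.H81.DE.mi_nonneg' (unif N) (fun n => (wd x L n, rs N M n)) l
  unfold mi at h3
  have h4 := ent_le_log_card (unif N) l
  rw [Fintype.card_fin] at h4
  rw [e1, e2]
  linarith

end Pool.Agent.H28.HB
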