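import Pool.Agent.H28.HB.Targets
import Pool.Agent.H28.GS1.CHAt

/-!
# Theorem (H0), MP_c59857_nt, row LEVg: one level of the entropy chain, any alphabet
-/

set_option autoImplicit false

open Finset Pool.Agent.H18.MR Pool.Agent.H93.DE Pool.Agent.H6.N4D Pool.Agent.H93
  Pool.Agent.H93.ES Pool.Agent.H25.ES Pool.Agent.H22.GS

namespace Pool.Agent.H28.HB

theorem pf_LEVg (hS : T_STAg) (hL : T_LVD) (hE : T_ENDg) : T_LEVg := by
  intro γ _ _ c N w _ x hw hcw hN
  have hρ := Pool.Agent.H28.GS1.CHA.rhoT_le hw hcw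
  have hab : w / 400 ≤ w / 200 := by omega
  obtain ⟨a, ha⟩ : ∃ a, a = w / 400 := ⟨_, rfl⟩
  obtain ⟨b, hb⟩ : ∃ b, b = w / 200 := ⟨_, rfl⟩
  obtain ⟨r, hr⟩ : ∃ r, r = rhoT c w := ⟨_, rfl⟩
  have hNa : primorial (2 ^ a) ∣ N := by
    refine (Pool.Agent.H81.DE.prim_dvd (Nat.pow_le_pow_right (by norm_num) ?_)).trans hN
    omega
  rw [← hb] at hN
  rw [← ha, ← hb]
  rw [← hr] at hρ
  obtain ⟨lg, hlg⟩ : ∃ lg, lg = Real.log (Fintype.card γ) := ⟨_, rfl⟩
  have hlg0 : 0 ≤ lg := by rw [hlg]; exact Real.log_natCast_nonneg _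
  rw [← hlg]
  obtain ⟨A, hA⟩ : ∃ A, A = hc x (2 ^ a) (primorial (2 ^ a)) / 2 ^ a := ⟨_, rfl⟩
  obtain ⟨B, hB⟩ : ∃ B, B = avE (2 ^ r) (2 ^ (w - r))
      (fun e => hc (tupA x (pos e)) (2 ^ b) (primorial (2 ^ b))) := ⟨_, rfl⟩
  have hR : (0 : ℝ) < 2 ^ r := by positivity
  -- the upper bound by the two entropies
  have h1 : infA c x w ≤ A - B / (2 ^ r * 2 ^ b) := by
    have e1 : infA c x w = avE (2 ^ r) (2 ^ (w - r)) (fun e =>
        ∑ m ∈ Ico a b, info (tupA x (pos e)) (2 ^ m) (primorial (2 ^ m)) (pr m) / 2 ^ m) /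
          2 ^ r := by
      rw [avE_sum, Finset.sum_div]
      unfold infA
      rw [← ha, ← hb, ← hr]
      refine Finset.sum_congr rfl fun m _ => ?_
      rw [avE_div, div_div, mul_comm ((2 : ℝ) ^ r)]
    have e2 : ∀ e : Fin (2 ^ r) → Fin (2 ^ (w - r)),
        ∑ m ∈ Ico a b, info (tupA x (pos e)) (2 ^ m) (primorial (2 ^ m)) (pr m) / 2 ^ m ≤
          2 ^ r * A - hc (tupA x (pos e)) (2 ^ b) (primorial (2 ^ b)) / 2 ^ b := by
      intro e
      have h2 := hL (Fin (2 ^ r) → γ) N a b (tupA x (pos e)) (by omega) hN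
      have h3 := hS γ N (2 ^ r) (2 ^ a) (primorial (2 ^ a)) x (pos e) (primorial_pos _) hNa
      have h4 : hc (tupA x (pos e)) (2 ^ a) (primorial (2 ^ a)) / 2 ^ a ≤ 2 ^ r * A := by
        rw [hA, ← mul_div_assoc]
        refine div_le_div_of_nonneg_right ?_ (by positivity)
        push_cast at h3
        exact h3
      linarith
    rw [e1]
    have h5 := avE_mono e2
    rw [avE_sub_const (by positivity), avE_div, ← hB] at h5
    calc _ ≤ (2 ^ r * A - B / 2 ^ b) / 2 ^ r := div_le_div_of_nonneg_right h5 hR.le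
      _ = A - B / (2 ^ r * 2 ^ b) := by
          field_simp
  -- the lower bound for the samples
  have h6 : hc x (2 ^ w) (primorial (2 ^ b)) / 2 ^ w ≤ B / (2 ^ r * 2 ^ b) +
      (1 / 2) ^ (w / 2) * lg := by
    have h7 := hE γ N (2 ^ r) (2 ^ (w - r)) (2 ^ b) (primorial (2 ^ b)) x (primorial_pos _) hN
      (by positivity) (by positivity) (Nat.pow_dvd_pow 2 (by omega))
    have e3 : 2 ^ r * 2 ^ (w - r) = 2 ^ w := by
      rw [← pow_add]
      congr 1
      omega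
    rw [e3, ← hB, ← hlg] at h7
    push_cast at h7
    have e4 : (2 : ℝ) ^ w = 2 ^ r * 2 ^ (w - r) := by
      rw [← pow_add]
      congr 1
      omega
    have e5 : (2 : ℝ) ^ (w - r) = 2 ^ b * 2 ^ (w - r - b) := by
      rw [← pow_add]
      congr 1
      omega
    have h8 : (2 : ℝ) ^ b / 2 ^ (w - r) * lg ≤ (1 / 2) ^ (w / 2) * lg := by
      refine mul_le_mul_of_nonneg_right ?_ hlg0
      rw [e5, div_mul_cancel_left₀ (by positivity)]
      have h9 : ((2 : ℝ) ^ (w - r - b))⁻¹ = (1 / 2) ^ (w - r - b) := by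
        rw [one_div, inv_pow]
      rw [h9]
      exact pow_le_pow_of_le_one (by norm_num) (by norm_num) (by omega)
    have h13 : hc x (2 ^ w) (primorial (2 ^ b)) / 2 ^ w ≤
        (2 ^ (w - r) / 2 ^ b * B + 2 ^ r * 2 ^ b * lg) / 2 ^ w :=
      div_le_div_of_nonneg_right h7 (by positivity)
    refine h13.trans ?_
    have e6 : (2 ^ (w - r) / 2 ^ b * B + 2 ^ r * 2 ^ b * lg) / 2 ^ w =
        B / (2 ^ r * 2 ^ b) + 2 ^ b / 2 ^ (w - r) * lg := by
      rw [e4]
      field_simp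
    rw [e6]
    linarith
  linarith

end Pool.Agent.H28.HB
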