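import Pool.Agent.H28.HB.STAg
import Pool.Agent.H28.HB.MNTg
import Pool.Agent.H28.HB.ENDg
import Pool.Agent.H28.HB.LEVg
import Pool.Agent.H28.HB.DPI
import Pool.Agent.H28.HB.CHD
import Pool.Agent.H6.TP.EsOne

/-!
# Theorem (H0), MP_c59857_nt: the entropy chain without hypotheses
-/

set_option autoImplicit false

namespace Pool.Agent.H28.HB.AllA

open Pool.Agent.H28.HB Pool.Agent.H6.TP.Es

theorem aSTA : T_STAg := pf_STAg tUNI tFAM
theorem aMNT : T_MNTg := pf_MNTg tUNI tFAM tCND
theorem aEND : T_ENDg := pf_ENDg tUNI tFAM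
theorem aLEV : T_LEVg := pf_LEVg aSTA tLVD aEND
theorem aDPI : T_DPI := pf_DPI
theorem aSTP : T_STPg := pf_STPg

/-- The sum of the informations of all levels, changing sequences. -/
theorem aCHD : T_CHD := pf_CHD tUNI aMNT aLEV aSTP

end Pool.Agent.H28.HB.AllA
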