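import Pool.Agent.H28.HB.OFF

/-!
# Theorem (H0), MP_c59857_nt, row BS0: the beginning of the greedy algorithm
-/

set_option autoImplicit false

open Finset Pool.Agent.H93.ES Pool.Agent.H70.ES Pool.Agent.H6.N4D
open Pool.Agent.H93.HB hiding val

namespace Pool.Agent.H28.HB

lemma clp_abs (v : ℝ) : |clp v| ≤ 1 := by
  unfold clp
  rw [abs_le]
  exact ⟨le_max_left _ _, max_le (by norm_num) (min_le_right _ _)⟩

/-- rounding changes the square of the distance by little -/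
lemma sq_round {a v v' ε : ℝ} (ha : |a| ≤ 1) (hv : |v| ≤ 1) (h : |v - v'| ≤ ε) (hε : ε ≤ 1) :
    (a - v') ^ 2 ≤ (a - v) ^ 2 + 5 * ε := by
  obtain ⟨h1, h2⟩ := abs_le.1 ha
  obtain ⟨h3, h4⟩ := abs_le.1 hv
  obtain ⟨h5, h6⟩ := abs_le.1 h
  have hε0 : 0 ≤ ε := (abs_nonneg _).trans h
  have e1 : (a - v') ^ 2 = (a - v) ^ 2 + 2 * (a - v) * (v - v') + (v - v') ^ 2 := by ring
  have h7 : 2 * (a - v) * (v - v') ≤ 4 * ε := by
    have h8 : |2 * (a - v) * (v - v')| ≤ 4 * ε := by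
      rw [abs_mul, abs_mul]
      have h9 : |a - v| ≤ 2 := abs_le.2 ⟨by linarith, by linarith⟩
      have : |(2 : ℝ)| = 2 := abs_of_pos (by norm_num)
      rw [this]
      nlinarith [abs_nonneg (a - v), abs_nonneg (v - v')]
    exact (le_abs_self _).trans h8
  have h8 : (v - v') ^ 2 ≤ ε := by
    have h9 : (v - v') ^ 2 ≤ ε ^ 2 := sq_le_sq' (by linarith) h6
    nlinarith
  linarith

/-- the mean of the means over the windows -/
lemma avZ_win {N : ℕ} [NeZero N] (s : ℕ) (F : ZMod N → ℝ) :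
    avZ (fun n => (∑ t ∈ range (2 ^ s), F (n + (t : ZMod N))) / 2 ^ s) = avZ F := by
  have hs : (0 : ℝ) < 2 ^ s := by positivity
  unfold avZ
  rw [← sum_div, sum_comm]
  have h1 : ∀ t ∈ range (2 ^ s), ∑ n : ZMod N, F (n + (t : ZMod N)) = ∑ n, F n := by
    intro t _
    exact Fintype.sum_equiv (Equiv.addRight (t : ZMod N)) _ _ fun x => rfl
  rw [sum_congr rfl h1, sum_const, card_range, nsmul_eq_mul]
  push_cast
  rw [mul_div_cancel_left₀ _ hs.ne']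

lemma num_BS0 {s w' : ℕ} (hs : 100 ≤ s) (hw : s ≤ w') :
    2 * ((1 / 2 : ℝ) ^ (s / 2)) ^ 2 + 5 * (1 / 2) ^ w' ≤ (1 / 2) ^ (s / 4) := by
  have h1 : ((1 / 2 : ℝ) ^ (s / 2)) ^ 2 ≤ 2 * (1 / 2) ^ s := by
    have h2 : ((1 / 2 : ℝ) ^ (s / 2)) ^ 2 ≤ (1 / 2) ^ (s - 1) := by
      rw [← pow_mul]
      exact pow_le_pow_of_le_one (by norm_num) (by norm_num) (by omega)
    refine h2.trans (le_of_eq ?_)
    obtain ⟨r, rfl⟩ : ∃ r, s = r + 1 := ⟨s - 1, by omega⟩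
    rw [Nat.add_sub_cancel, pow_succ]
    ring
  have h2 : (1 / 2 : ℝ) ^ w' ≤ (1 / 2) ^ s := pow_le_pow_of_le_one (by norm_num) (by norm_num) hw
  have h3 : (1 / 2 : ℝ) ^ s = (1 / 2) ^ (s - 4) * (1 / 16) := by
    obtain ⟨r, rfl⟩ : ∃ r, s = r + 4 := ⟨s - 4, by omega⟩
    rw [Nat.add_sub_cancel, pow_add]
    norm_num
  have h4 : (1 / 2 : ℝ) ^ (s - 4) ≤ (1 / 2) ^ (s / 4) :=
    pow_le_pow_of_le_one (by norm_num) (by norm_num) (by omega)
  have h5 : (0 : ℝ) ≤ (1 / 2) ^ (s - 4) := by positivity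
  linarith

theorem pf_BS0 (hE : T_NE0) (hO : T_OFF) (hR : T_RND) : T_BS0 := by
  intro R
  obtain ⟨C, s₀, hC, hE⟩ := hE R
  refine ⟨C, max s₀ 100, hC, ?_⟩
  intro N s w' _ lam b β hs hsw hlam hb hN
  have hs0 : s₀ ≤ s := (le_max_left _ _).trans hs
  have hs1 : 100 ≤ s := (le_max_right _ _).trans hs
  have hW : (0 : ℝ) < 2 ^ s := by positivity
  obtain ⟨M, Γ, hM, hlM, hΓ⟩ := hE s hs0
  choose l hl using fun n : ZMod N => hΓ (b n) (β n) (hb n)
  choose rd hrd using fun v : {v : ℝ // |v| ≤ 1} => hR w' v.1 v.2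
  obtain ⟨o, ho, h1⟩ := hO N s 1 lam (fun _ => 0) (fun n t => Γ (l n) t) hN hlam
  refine ⟨fun x => rd ⟨clp (Γ (l (tp s o x)) (tl s o x)), clp_abs _⟩, M, o, l,
    fun p => rd ⟨clp (Γ p.1 p.2), clp_abs _⟩, hM, ho, hlM, fun x => rfl, ?_⟩
  -- rounding
  have h2 : avZ (fun x => (lam x - Pool.Agent.H93.HB.val w'
      (rd ⟨clp (Γ (l (tp s o x)) (tl s o x)), clp_abs _⟩)) ^ 2) ≤
      avZ (fun x => (lam x - clp (Γ (l (tp s o x)) (tl s o x))) ^ 2) + 5 * (1 / 2) ^ w' := by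
    have h3 : avZ (fun x : ZMod N => (lam x - clp (Γ (l (tp s o x)) (tl s o x))) ^ 2) +
        5 * (1 / 2) ^ w' = avZ (fun x : ZMod N =>
          (lam x - clp (Γ (l (tp s o x)) (tl s o x))) ^ 2 + 5 * (1 / 2) ^ w') := by
      rw [avZ_add, avZ_const]
    rw [h3]
    refine avZ_mono fun x => ?_
    exact sq_round (hlam x) (clp_abs _) (hrd ⟨clp (Γ (l (tp s o x)) (tl s o x)), clp_abs _⟩)
      (pow_le_one₀ (by norm_num) (by norm_num))
  -- the distance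
  have h3 : avZ (fun x => (lam x - clp (Γ (l (tp s o x)) (tl s o x))) ^ 2) ≤
      avZ (fun n => (∑ t ∈ range (2 ^ s), (lt lam n t - Γ (l n) t) ^ 2) / 2 ^ s) := by
    have e1 : ∀ x : ZMod N, (0 : ℝ) + 1 * Γ (l (tp s o x)) (tl s o x) =
        Γ (l (tp s o x)) (tl s o x) := fun x => by ring
    simp only [e1] at h1
    refine h1.trans (le_of_eq ?_)
    rw [← avZ_win s (fun x => (lam x - 0) ^ 2), ← avZ_add]
    congr 1
    funext n
    rw [← add_div, ← sum_add_distrib]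
    congr 1
    refine sum_congr rfl fun t _ => ?_
    unfold lt
    ring
  have h4 : avZ (fun n => (∑ t ∈ range (2 ^ s), (lt lam n t - Γ (l n) t) ^ 2) / 2 ^ s) ≤
      2 * be R s lam b β + 2 * ((1 / 2 : ℝ) ^ (s / 2)) ^ 2 := by
    have e1 : 2 * be R s lam b β + 2 * ((1 / 2 : ℝ) ^ (s / 2)) ^ 2 =
        avZ (fun n : ZMod N => 2 * ((∑ t ∈ range (2 ^ s),
          ‖(lt lam n t : ℂ) - ∑ r ∈ range R, b n r * ee (β n r * t)‖ ^ 2) / 2 ^ s) +
          2 * ((1 / 2 : ℝ) ^ (s / 2)) ^ 2) := by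
      rw [avZ_add, avZ_const, avZ_mul]
      rfl
    rw [e1]
    refine avZ_mono fun n => ?_
    have h5 : ∀ t ∈ range (2 ^ s), (lt lam n t - Γ (l n) t) ^ 2 ≤
        2 * ‖(lt lam n t : ℂ) - ∑ r ∈ range R, b n r * ee (β n r * t)‖ ^ 2 +
          2 * ((1 / 2 : ℝ) ^ (s / 2)) ^ 2 := by
      intro t ht
      have h6 := hl n t (mem_range.1 ht)
      obtain ⟨m, hm⟩ : ∃ m : ℂ, m = ∑ r ∈ range R, b n r * ee (β n r * t) := ⟨_, rfl⟩
      rw [← hm] at h6 ⊢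
      have h7 : |lt lam n t - m.re| ≤ ‖(lt lam n t : ℂ) - m‖ := by
        have := Complex.abs_re_le_norm ((lt lam n t : ℂ) - m)
        rwa [Complex.sub_re, Complex.ofReal_re] at this
      have h8 : (lt lam n t - Γ (l n) t) ^ 2 ≤ 2 * (lt lam n t - m.re) ^ 2 +
          2 * (m.re - Γ (l n) t) ^ 2 := by
        nlinarith [sq_nonneg ((lt lam n t - m.re) - (m.re - Γ (l n) t))]
      have h9 : (lt lam n t - m.re) ^ 2 ≤ ‖(lt lam n t : ℂ) - m‖ ^ 2 := by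
        rw [← sq_abs (lt lam n t - m.re)]
        exact pow_le_pow_left₀ (abs_nonneg _) h7 2
      have h10 : (m.re - Γ (l n) t) ^ 2 ≤ ((1 / 2 : ℝ) ^ (s / 2)) ^ 2 := by
        rw [← sq_abs (m.re - Γ (l n) t)]
        exact pow_le_pow_left₀ (abs_nonneg _) h6 2
      linarith
    refine (div_le_div_of_nonneg_right (sum_le_sum h5) hW.le).trans (le_of_eq ?_)
    rw [sum_add_distrib, ← mul_sum, sum_const, card_range, nsmul_eq_mul]
    push_cast
    field_simp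
  have h5 := num_BS0 hs1 hsw
  linarith

end Pool.Agent.H28.HB
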