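import Pool.Agent.H93.HB.Targets
import Pool.Agent.H70.ES.Avg

/-!
# Theorem (H0), MP_c59857_nt, row OFF: the best offset of the tiles, with clipping
-/

set_option autoImplicit false

open Finset Pool.Agent.H93.ES Pool.Agent.H93.HB Pool.Agent.H70.ES

namespace Pool.Agent.H28.HB

/-- clipping does not increase the distance to a number of the interval -/
lemma clp_dist {a v : ℝ} (ha : |a| ≤ 1) : (a - clp v) ^ 2 ≤ (a - v) ^ 2 := by
  obtain ⟨h1, h2⟩ := abs_le.1 ha
  unfold clp
  rcases le_total v 1 with h | h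
  · rw [min_eq_left h]
    rcases le_total (-1) v with h' | h'
    · rw [max_eq_right h']
    · rw [max_eq_left h']
      nlinarith
  · rw [min_eq_right h, max_eq_right (by norm_num : (-1 : ℝ) ≤ 1)]
    nlinarith

/-- the offset and the place in the tile -/
lemma off_mod {X W o : ℕ} (ho : o < W) : (X + W - (X + W - o) % W) % W = o := by
  have hW : 0 < W := lt_of_le_of_lt (Nat.zero_le _) ho
  obtain ⟨t, ht⟩ : ∃ t, t = (X + W - o) % W := ⟨_, rfl⟩
  have ht1 : t < W := by rw [ht]; exact Nat.mod_lt _ hW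
  rw [← ht]
  have h1 : (X + W - t) + t ≡ o + t [MOD W] := by
    have e1 : X + W - t + t = X + W := by omega
    have h2 : o + t ≡ o + (X + W - o) [MOD W] := by
      refine Nat.ModEq.add_left o ?_
      rw [ht]
      exact Nat.mod_modEq _ _
    have e2 : o + (X + W - o) = X + W := by omega
    rw [e1]
    rw [e2] at h2
    exact h2.symm
  have h3 : X + W - t ≡ o [MOD W] := Nat.ModEq.add_right_cancel' t h1
  have h4 : (X + W - t) % W = o % W := h3
  rw [h4, Nat.mod_eq_of_lt ho]

/-- the sum over the offsets is the sum over the windows -/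
lemma sum_off {N : ℕ} [NeZero N] (w : ℕ) (g : ZMod N → ℕ → ℝ) :
    ∑ o ∈ range (2 ^ w), ∑ x : ZMod N, g (tp w o x) (tl w o x) =
      ∑ n : ZMod N, ∑ t ∈ range (2 ^ w), g n t := by
  have hW : 0 < 2 ^ w := by positivity
  rw [sum_comm]
  have h1 : ∀ x : ZMod N, ∑ o ∈ range (2 ^ w), g (tp w o x) (tl w o x) =
      ∑ t ∈ range (2 ^ w), g (x - (t : ZMod N)) t := by
    intro x
    refine Finset.sum_nbij' (fun o => ((tl w o x : Fin (2 ^ w)) : ℕ))
      (fun t => (x.val + 2 ^ w - t) % 2 ^ w) ?_ ?_ ?_ ?_ ?_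
    · intro o _
      exact mem_range.2 (tl w o x).2
    · intro t _
      exact mem_range.2 (Nat.mod_lt _ hW)
    · intro o ho
      exact off_mod (mem_range.1 ho)
    · intro t ht
      exact off_mod (mem_range.1 ht)
    · intro o _
      rfl
  rw [sum_congr rfl fun x _ => h1 x, sum_comm]
  conv_rhs => rw [sum_comm]
  refine sum_congr rfl fun t _ => ?_
  exact Fintype.sum_equiv (Equiv.subRight (t : ZMod N)) _ _ fun x => rfl

theorem pf_OFF : T_OFF := by
  intro N w _ c lam f H _ hlam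
  have hN : (0 : ℝ) < N := by exact_mod_cast NeZero.pos N
  have hW : (0 : ℝ) < 2 ^ w := by positivity
  obtain ⟨g, hg⟩ : ∃ g : ZMod N → ℕ → ℝ, ∀ n t, g n t =
    c ^ 2 * H n t ^ 2 - 2 * c * (lt lam n t - lt f n t) * H n t := ⟨_, fun _ _ => rfl⟩
  have h1 : ∀ o, avZ (fun x => (lam x - clp (f x + c * H (tp w o x) (tl w o x))) ^ 2) ≤
      avZ (fun x => (lam x - f x) ^ 2) + avZ (fun x => g (tp w o x) (tl w o x)) := by
    intro o
    rw [← avZ_add]
    refine avZ_mono fun x => ?_
    refine (clp_dist (hlam x)).trans (le_of_eq ?_)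
    rw [hg]
    have e1 : tp w o x + (((tl w o x : Fin (2 ^ w)) : ℕ) : ZMod N) = x := by
      unfold tp
      ring
    unfold lt
    rw [e1]
    ring
  have h2 : ∑ o ∈ range (2 ^ w),
      avZ (fun x => (lam x - clp (f x + c * H (tp w o x) (tl w o x))) ^ 2) ≤
      ∑ _o ∈ range (2 ^ w), (avZ (fun x => (lam x - f x) ^ 2) +
        avZ (fun n => (∑ t ∈ range (2 ^ w), g n t) / 2 ^ w)) := by
    refine (sum_le_sum fun o _ => h1 o).trans (le_of_eq ?_)
    rw [sum_add_distrib, sum_add_distrib]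
    congr 1
    rw [sum_const, card_range, nsmul_eq_mul]
    unfold avZ
    rw [← sum_div, sum_off w g, ← sum_div]
    push_cast
    field_simp
  obtain ⟨o, ho, h3⟩ := exists_le_of_sum_le ⟨0, mem_range.2 (by positivity)⟩ h2
  refine ⟨o, mem_range.1 ho, h3.trans (le_of_eq ?_)⟩
  congr 2
  funext n
  congr 1
  exact sum_congr rfl fun t _ => hg n t

end Pool.Agent.H28.HB
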