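import Pool.Agent.H93.HB.Targets

/-!
# Theorem (H0), MP_c59857_nt, row RND: rounding to binary digits
-/

set_option autoImplicit false

open Finset Pool.Agent.H93.ES
open Pool.Agent.H93.HB hiding val

namespace Pool.Agent.H28.HB

lemma val_succ (D : ℕ) (b : Fin (D + 1) → Bool) :
    Pool.Agent.H93.HB.val (D + 1) b =
      sg (b 0) / 2 + Pool.Agent.H93.HB.val D (fun i => b i.succ) / 2 := by
  unfold Pool.Agent.H93.HB.val
  rw [Fin.sum_univ_succ, sum_div]
  congr 1
  · simp only [Fin.val_zero, zero_add, pow_one]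
    ring
  · refine sum_congr rfl fun i _ => ?_
    simp only [Fin.val_succ]
    rw [pow_succ]
    ring

theorem pf_RND : T_RND := by
  intro D
  induction D with
  | zero =>
    intro v hv
    refine ⟨fun _ => true, ?_⟩
    simpa [Pool.Agent.H93.HB.val] using hv
  | succ D ih =>
    intro v hv
    obtain ⟨h1, h2⟩ := abs_le.1 hv
    rcases le_or_gt 0 v with h0 | h0
    · obtain ⟨b, hb⟩ := ih (2 * v - 1) (abs_le.2 ⟨by linarith, by linarith⟩)
      refine ⟨Fin.cons true b, ?_⟩
      rw [val_succ]
      have e1 : sg ((Fin.cons true b : Fin (D + 1) → Bool) 0) = 1 := by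
        simp [sg]
      have e2 : (fun i : Fin D => (Fin.cons true b : Fin (D + 1) → Bool) i.succ) = b := by
        funext i
        simp
      rw [e1, e2]
      have e3 : v - (1 / 2 + Pool.Agent.H93.HB.val D b / 2) =
          (2 * v - 1 - Pool.Agent.H93.HB.val D b) * (1 / 2) := by ring
      rw [e3, abs_mul, pow_succ, abs_of_pos (by norm_num : (0 : ℝ) < 1 / 2)]
      exact mul_le_mul_of_nonneg_right hb (by norm_num)
    · obtain ⟨b, hb⟩ := ih (2 * v + 1) (abs_le.2 ⟨by linarith, by linarith⟩)
      refine ⟨Fin.cons false b, ?_⟩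
      rw [val_succ]
      have e1 : sg ((Fin.cons false b : Fin (D + 1) → Bool) 0) = -1 := by
        simp [sg]
      have e2 : (fun i : Fin D => (Fin.cons false b : Fin (D + 1) → Bool) i.succ) = b := by
        funext i
        simp
      rw [e1, e2]
      have e3 : v - (-1 / 2 + Pool.Agent.H93.HB.val D b / 2) =
          (2 * v + 1 - Pool.Agent.H93.HB.val D b) * (1 / 2) := by ring
      rw [e3, abs_mul, pow_succ, abs_of_pos (by norm_num : (0 : ℝ) < 1 / 2)]
      exact mul_le_mul_of_nonneg_right hb (by norm_num)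

end Pool.Agent.H28.HB
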