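import Pool.Agent.H28.HB.BS0

/-!
# Theorem (H0), MP_c59857_nt, row STP: one step of the greedy algorithm
-/

set_option autoImplicit false

open Finset Pool.Agent.H93 Pool.Agent.H93.ES Pool.Agent.H70.ES Pool.Agent.H6.N4D
open Pool.Agent.H56.HB
open Pool.Agent.H93.HB hiding val

namespace Pool.Agent.H28.HB

lemma val_abs (D : ℕ) (b : Fin D → Bool) : |Pool.Agent.H93.HB.val D b| ≤ 1 := by
  induction D with
  | zero => simp [Pool.Agent.H93.HB.val]
  | succ D ih =>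
    rw [show Pool.Agent.H93.HB.val (D + 1) b =
      sg (b 0) / 2 + Pool.Agent.H93.HB.val D (fun i => b i.succ) / 2 from by
        unfold Pool.Agent.H93.HB.val
        rw [Fin.sum_univ_succ, sum_div]
        congr 1
        · simp only [Fin.val_zero, zero_add, pow_one]
          ring
        · refine sum_congr rfl fun i _ => ?_
          simp only [Fin.val_succ]
          rw [pow_succ]
          ring]
    have h1 : |sg (b 0)| ≤ 1 := by
      unfold sg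
      split_ifs <;> norm_num
    obtain ⟨h2, h3⟩ := abs_le.1 h1
    obtain ⟨h4, h5⟩ := abs_le.1 (ih fun i => b i.succ)
    exact abs_le.2 ⟨by linarith, by linarith⟩

/-- the real part of a mean against the dual function -/
lemma re_dg (f : ℕ → ℝ) (w r₀ P : ℕ) (φ : ℕ → ℕ → ℝ) (u : ℕ → ℕ → ℂ) :
    (∑ t ∈ range (2 ^ w), f t * (dg w r₀ P φ u t).re) / 2 ^ w =
      ∑ q ∈ EB.QQ w, 1 / (q : ℝ) * (cx f w q r₀ (fe P φ u q)).re := by
  have h1 : ∀ q : ℕ, (cx f w q r₀ (fe P φ u q)).re =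
      (∑ t ∈ range (2 ^ w), f t * (DR q (r₀ + t) * (fe P φ u q t).re)) / 2 ^ w := by
    intro q
    unfold cx wm
    have e1 : ((2 : ℂ) ^ w) = (((2 : ℝ) ^ w : ℝ) : ℂ) := by push_cast; rfl
    rw [e1, Complex.div_ofReal_re, Complex.re_sum]
    congr 1
    refine sum_congr rfl fun t _ => ?_
    rw [Complex.re_ofReal_mul, Complex.re_ofReal_mul, Complex.conj_re]
  have h2 : ∀ t : ℕ, (dg w r₀ P φ u t).re =
      ∑ q ∈ EB.QQ w, 1 / (q : ℝ) * (DR q (r₀ + t) * (fe P φ u q t).re) := by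
    intro t
    unfold dg
    rw [Complex.re_sum]
    refine sum_congr rfl fun q _ => ?_
    have e1 : (1 / (q : ℂ)) = ((1 / (q : ℝ) : ℝ) : ℂ) := by push_cast; rfl
    rw [e1, mul_assoc, Complex.re_ofReal_mul, Complex.re_ofReal_mul]
  simp only [h2, h1]
  rw [sum_div]
  simp only [mul_sum, sum_div]
  rw [sum_comm]
  refine sum_congr rfl fun q _ => sum_congr rfl fun t _ => ?_
  ring

lemma num_STP {w w' : ℕ} (hw : 10 ^ 5 ≤ w) (hww : w ≤ w') :
    1 / 8 * (1 / 2 : ℝ) ^ (w / 2000) + 1 / 8 * ((1 / 2) ^ (w / 2)) ^ 2 + (1 / 2) ^ (w / 2) +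
      5 * (1 / 2) ^ w' ≤ (1 / 2) ^ (w / 3000) := by
  have h1 : (1 / 2 : ℝ) ^ (w / 2000) ≤ (1 / 2) ^ (w / 3000) :=
    pow_le_pow_of_le_one (by norm_num) (by norm_num) (by omega)
  have h2 : (1 / 2 : ℝ) ^ (w / 2) ≤ (1 / 2) ^ (w / 3000 + 6) :=
    pow_le_pow_of_le_one (by norm_num) (by norm_num) (by omega)
  have h3 : (1 / 2 : ℝ) ^ w' ≤ (1 / 2) ^ (w / 3000 + 6) :=
    pow_le_pow_of_le_one (by norm_num) (by norm_num) (by omega)
  have h4 : (1 / 2 : ℝ) ^ (w / 3000 + 6) = (1 / 2) ^ (w / 3000) / 64 := by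
    rw [pow_add]
    norm_num
    ring
  have h5 : (0 : ℝ) ≤ (1 / 2) ^ (w / 2) := by positivity
  have h6 : (1 / 2 : ℝ) ^ (w / 2) ≤ 1 := pow_le_one₀ (by norm_num) (by norm_num)
  have h7 : ((1 / 2 : ℝ) ^ (w / 2)) ^ 2 ≤ (1 / 2) ^ (w / 2) := by nlinarith
  have h8 : (0 : ℝ) < (1 / 2) ^ (w / 3000) := by positivity
  linarith

theorem pf_STP (hD : T_DGW) (hE : T_NET) (hO : T_OFF) (hR : T_RND) : T_STP := by
  obtain ⟨C₁, hC₁, hD⟩ := hD
  obtain ⟨c, hc⟩ : ∃ c : ℝ, c = 1 / (4 * C₁) := ⟨_, rfl⟩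
  have hC₁0 : 0 < C₁ := by linarith
  have hc0 : 0 < c := by rw [hc]; positivity
  have hc1 : c ≤ 1 / 4 := by
    rw [hc, div_le_div_iff₀ (by positivity) (by norm_num)]
    linarith
  have hcC : 2 * c ^ 2 * C₁ = c / 2 := by
    rw [hc]
    field_simp
    norm_num
  refine ⟨c, 1 / 4, hc0, by norm_num, ?_⟩
  intro P V
  obtain ⟨w₁, hD⟩ := hD P V
  obtain ⟨C, w₂, hC, hE⟩ := hE P
  refine ⟨C, max (max w₁ w₂) (10 ^ 5), hC, ?_⟩
  intro N w w' _ lam y φ u X hw hww hlam hN hX hFC hcross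
  have hw1 : w₁ ≤ w := (le_max_left _ _).trans ((le_max_left _ _).trans hw)
  have hw2 : w₂ ≤ w := (le_max_right _ _).trans ((le_max_left _ _).trans hw)
  have hw3 : 10 ^ 5 ≤ w := (le_max_right _ _).trans hw
  have hW : (0 : ℝ) < 2 ^ w := by positivity
  obtain ⟨M, Γ, hM, hlM, hΓ⟩ := hE w hw2
  choose l hl using fun n : ZMod N => hΓ n.val (φ n) (u n) (hFC n).nf.cb
  choose rd hrd using fun v : {v : ℝ // |v| ≤ 1} => hR w' v.1 v.2
  obtain ⟨f, hf⟩ : ∃ f : ZMod N → ℝ, ∀ x, f x = Pool.Agent.H93.HB.val w (y x) :=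
    ⟨_, fun _ => rfl⟩
  have hf' : (fun x => Pool.Agent.H93.HB.val w (y x)) = f := funext fun x => (hf x).symm
  have hfa : ∀ x, |f x| ≤ 1 := fun x => by rw [hf]; exact val_abs _ _
  rw [hf'] at hcross
  obtain ⟨o, ho, h1⟩ := hO N w c lam f (fun n t => Γ (l n) t) hN hlam
  refine ⟨fun x => rd ⟨clp (Pool.Agent.H93.HB.val w (y x) +
      c * Γ (l (tp w o x)) (tl w o x)), clp_abs _⟩, M, o, l,
    fun b p => rd ⟨clp (Pool.Agent.H93.HB.val w b + c * Γ p.1 p.2), clp_abs _⟩,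
    hM, ho, hlM, fun x => rfl, ?_⟩
  rw [show (fun x => (lam x - Pool.Agent.H93.HB.val w (y x)) ^ 2) =
    fun x => (lam x - f x) ^ 2 from funext fun x => by rw [hf]]
  -- rounding
  have h2 : avZ (fun x => (lam x - Pool.Agent.H93.HB.val w'
      (rd ⟨clp (Pool.Agent.H93.HB.val w (y x) + c * Γ (l (tp w o x)) (tl w o x)),
        clp_abs _⟩)) ^ 2) ≤
      avZ (fun x => (lam x - clp (f x + c * Γ (l (tp w o x)) (tl w o x))) ^ 2) +
        5 * (1 / 2) ^ w' := by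
    have h3 : avZ (fun x : ZMod N =>
        (lam x - clp (f x + c * Γ (l (tp w o x)) (tl w o x))) ^ 2) +
        5 * (1 / 2) ^ w' = avZ (fun x : ZMod N =>
          (lam x - clp (f x + c * Γ (l (tp w o x)) (tl w o x))) ^ 2 + 5 * (1 / 2) ^ w') := by
      rw [avZ_add, avZ_const]
    rw [h3]
    refine avZ_mono fun x => ?_
    rw [hf]
    exact sq_round (hlam x) (clp_abs _) (hrd ⟨clp (Pool.Agent.H93.HB.val w (y x) +
      c * Γ (l (tp w o x)) (tl w o x)), clp_abs _⟩)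
      (pow_le_one₀ (by norm_num) (by norm_num))
  -- one window
  obtain ⟨ε, hε⟩ : ∃ ε : ℝ, ε = (1 / 2) ^ (w / 2) := ⟨_, rfl⟩
  have hε0 : 0 ≤ ε := by rw [hε]; positivity
  have h3 : ∀ n : ZMod N, (∑ t ∈ range (2 ^ w),
      (c ^ 2 * Γ (l n) t ^ 2 - 2 * c * (lt lam n t - lt f n t) * Γ (l n) t)) / 2 ^ w ≤
      (-c) * fw (lt lam n) w n.val P (φ n) (u n) +
        (2 * c ^ 2 * C₁ - c) * qe w P (φ n) (u n) +
        2 * c * ∑ q ∈ EB.QQ w, 1 / (q : ℝ) *
          ‖cx (lt f n) w q n.val (fe P (φ n) (u n) q)‖ +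
        (2 * c ^ 2 * (1 / 2) ^ (w / 2000) + 2 * c ^ 2 * ε ^ 2 + 4 * c * ε) := by
    intro n
    have h4 : ∀ t ∈ range (2 ^ w),
        c ^ 2 * Γ (l n) t ^ 2 - 2 * c * (lt lam n t - lt f n t) * Γ (l n) t ≤
        2 * c ^ 2 * ‖dg w n.val P (φ n) (u n) t‖ ^ 2 -
          2 * c * (lt lam n t * (dg w n.val P (φ n) (u n) t).re) +
          2 * c * (lt f n t * (dg w n.val P (φ n) (u n) t).re) +
          (2 * c ^ 2 * ε ^ 2 + 4 * c * ε) := by
      intro t ht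
      have h5 := hl n t (mem_range.1 ht)
      rw [← hε] at h5
      obtain ⟨G, hG⟩ : ∃ G : ℝ, G = (dg w n.val P (φ n) (u n) t).re := ⟨_, rfl⟩
      obtain ⟨g, hg⟩ : ∃ g : ℝ, g = Γ (l n) t := ⟨_, rfl⟩
      rw [← hG, ← hg] at h5
      rw [← hG, ← hg]
      have h6 : G ^ 2 ≤ ‖dg w n.val P (φ n) (u n) t‖ ^ 2 := by
        rw [hG, ← sq_abs]
        exact pow_le_pow_left₀ (abs_nonneg _) (Complex.abs_re_le_norm _) 2
      have h7 : g ^ 2 ≤ 2 * G ^ 2 + 2 * ε ^ 2 := by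
        have h8 : (G - g) ^ 2 ≤ ε ^ 2 := by
          rw [← sq_abs]
          exact pow_le_pow_left₀ (abs_nonneg _) h5 2
        nlinarith [sq_nonneg (G + (G - g))]
      have h8 : |lt lam n t - lt f n t| ≤ 2 := by
        have e1 : |lt lam n t| ≤ 1 := hlam _
        have e2 : |lt f n t| ≤ 1 := hfa _
        obtain ⟨a1, a2⟩ := abs_le.1 e1
        obtain ⟨a3, a4⟩ := abs_le.1 e2
        exact abs_le.2 ⟨by linarith, by linarith⟩
      have h9 : (lt lam n t - lt f n t) * (G - g) ≤ 2 * ε := by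
        calc (lt lam n t - lt f n t) * (G - g) ≤ |(lt lam n t - lt f n t) * (G - g)| :=
              le_abs_self _
          _ = |lt lam n t - lt f n t| * |G - g| := abs_mul _ _
          _ ≤ 2 * ε := mul_le_mul h8 h5 (abs_nonneg _) (by norm_num)
      have h10 : c ^ 2 * g ^ 2 ≤ c ^ 2 * (2 * ‖dg w n.val P (φ n) (u n) t‖ ^ 2 +
          2 * ε ^ 2) := mul_le_mul_of_nonneg_left (by linarith) (by positivity)
      have h11 : c * ((lt lam n t - lt f n t) * (G - g)) ≤ c * (2 * ε) :=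
        mul_le_mul_of_nonneg_left h9 hc0.le
      nlinarith
    have h5 := div_le_div_of_nonneg_right (sum_le_sum h4) hW.le
    refine h5.trans ?_
    have h6 : (∑ t ∈ range (2 ^ w), (2 * c ^ 2 * ‖dg w n.val P (φ n) (u n) t‖ ^ 2 -
          2 * c * (lt lam n t * (dg w n.val P (φ n) (u n) t).re) +
          2 * c * (lt f n t * (dg w n.val P (φ n) (u n) t).re) +
          (2 * c ^ 2 * ε ^ 2 + 4 * c * ε))) / 2 ^ w =
        2 * c ^ 2 * ms w (dg w n.val P (φ n) (u n)) -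
          2 * c * ((∑ t ∈ range (2 ^ w),
            lt lam n t * (dg w n.val P (φ n) (u n) t).re) / 2 ^ w) +
          2 * c * ((∑ t ∈ range (2 ^ w),
            lt f n t * (dg w n.val P (φ n) (u n) t).re) / 2 ^ w) +
          (2 * c ^ 2 * ε ^ 2 + 4 * c * ε) := by
      rw [sum_add_distrib, sum_add_distrib, sum_sub_distrib, ← mul_sum, ← mul_sum, ← mul_sum,
        sum_const, card_range, nsmul_eq_mul]
      unfold ms
      push_cast
      field_simp
    rw [h6, re_dg, re_dg]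
    have h7 := hD w n.val (φ n) (u n) hw1 (hFC n)
    have h8 : fw (lt lam n) w n.val P (φ n) (u n) =
        2 * (∑ q ∈ EB.QQ w, 1 / (q : ℝ) * (cx (lt lam n) w q n.val (fe P (φ n) (u n) q)).re) -
          qe w P (φ n) (u n) := by
      unfold fw qe
      rw [mul_sum, ← sum_sub_distrib]
      refine sum_congr rfl fun q _ => ?_
      ring
    have h9 : ∑ q ∈ EB.QQ w, 1 / (q : ℝ) * (cx (lt f n) w q n.val (fe P (φ n) (u n) q)).re ≤
        ∑ q ∈ EB.QQ w, 1 / (q : ℝ) * ‖cx (lt f n) w q n.val (fe P (φ n) (u n) q)‖ :=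
      sum_le_sum fun q _ => mul_le_mul_of_nonneg_left (Complex.re_le_norm _) (by positivity)
    have h10 : 2 * c ^ 2 * ms w (dg w n.val P (φ n) (u n)) ≤
        2 * c ^ 2 * (C₁ * qe w P (φ n) (u n) + (1 / 2) ^ (w / 2000)) :=
      mul_le_mul_of_nonneg_left h7 (by positivity)
    have h11 := mul_le_mul_of_nonneg_left h9 (by positivity : 0 ≤ 2 * c)
    rw [h8]
    linarith
  -- the mean
  have h4 := avZ_mono h3
  rw [avZ_add, avZ_add, avZ_add, avZ_mul, avZ_mul, avZ_mul, avZ_const] at h4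
  have h5 : 2 * c * avZ (fun n => ∑ q ∈ EB.QQ w, 1 / (q : ℝ) *
      ‖cx (lt f n) w q n.val (fe P (φ n) (u n) q)‖) ≤
      2 * c * (1 / 4 * avZ (fun n => qe w P (φ n) (u n)) + X) :=
    mul_le_mul_of_nonneg_left hcross (by positivity)
  have h6 : 2 * c * X ≤ X := by nlinarith
  have h7 := num_STP hw3 hww
  have h8 : 2 * c ^ 2 * (1 / 2 : ℝ) ^ (w / 2000) + 2 * c ^ 2 * ε ^ 2 + 4 * c * ε ≤
      1 / 8 * (1 / 2 : ℝ) ^ (w / 2000) + 1 / 8 * ε ^ 2 + ε := by
    have a1 : c ^ 2 ≤ 1 / 16 := by nlinarith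
    have a2 : (0 : ℝ) ≤ (1 / 2) ^ (w / 2000) := by positivity
    have a3 : (0 : ℝ) ≤ ε ^ 2 := by positivity
    nlinarith
  rw [hcC] at h4
  rw [← hε] at h7
  linarith

end Pool.Agent.H28.HB
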