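import Pool.Agent.H28.HB.Targets
import Pool.Agent.H46.DE.DCR

/-!
# Theorem (H0), MP_c59857_nt, row STAg: a tuple of words has at most the entropy of its words
-/

set_option autoImplicit false

open Finset Pool.Agent.H18.MR Pool.Agent.H93.DE Pool.Agent.H6.N4D Pool.Agent.H93
  Pool.Agent.H93.ES

namespace Pool.Agent.H28.HB

theorem pf_STAg (hU : T_UNI) (hF : T_FAM) : T_STAg := by
  intro γ _ _ N R L M _ x d hM hMN
  haveI : NeZero M := ⟨hM.ne'⟩
  have hlog : ent (unif N) (fun n => rs N M n) = Real.log M := (hU.2 N M hMN).2
  -- the family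
  have h1 := hF (ZMod N) (Fin L → γ) (ZMod M) (unif N) R
    (fun r n => wd x L (n + (d r : ZMod N))) (fun n => rs N M n)
  rw [hlog] at h1
  -- translation invariance of every member of the family
  have h2 : ∀ r : Fin R, ent (unif N) (fun n => (wd x L (n + (d r : ZMod N)), rs N M n)) =
      ent (unif N) (fun n => (wd x L n, rs N M n)) := by
    intro r
    have h4 := hU.1 ((Fin L → γ) × ZMod M) N (fun n => (wd x L n, rs N M n))
      (d r : ZMod N)
    refine Eq.trans ?_ h4
    refine ent_congr_inj (unif N) _ _ (fun t => (t.1, t.2 + (d r : ZMod M)))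
      (fun t => (t.1, t.2 - (d r : ZMod M))) ?_ ?_
    · intro n
      simp only
      rw [H46.DE.rs_add hMN]
    · intro n
      simp only
      rw [H46.DE.rs_add hMN, add_sub_cancel_right]
  -- the word of the tuples and the tuple of the words
  have h3 : ent (unif N) (fun n => (wd (tupA x d) L n, rs N M n)) =
      ent (unif N) (fun n =>
        ((fun r => wd x L (n + (d r : ZMod N)) : Fin R → Fin L → γ), rs N M n)) := by
    refine ent_congr_inj (unif N) _ _ (fun t => (fun r i => t.1 i r, t.2))
      (fun t => (fun i r => t.1 r i, t.2)) ?_ ?_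
    · intro n
      refine Prod.ext ?_ rfl
      funext r i
      simp only [wd, tupA]
      congr 1
      ring
    · intro n
      refine Prod.ext ?_ rfl
      funext i r
      simp only [wd, tupA]
      congr 1
      ring
  have e1 : hc (tupA x d) L M = ent (unif N) (fun n => (wd (tupA x d) L n, rs N M n)) -
      Real.log M := by
    unfold hc
    rw [dif_neg hM.ne']
  have e2 : hc x L M = ent (unif N) (fun n => (wd x L n, rs N M n)) - Real.log M := by
    unfold hc
    rw [dif_neg hM.ne']
  rw [e1, e2, h3]
  refine h1.trans (le_of_eq ?_)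
  rw [Finset.sum_congr rfl (fun r _ => by rw [h2 r])]
  rw [Finset.sum_const, Finset.card_univ, Fintype.card_fin, nsmul_eq_mul]

end Pool.Agent.H28.HB
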