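import Pool.Agent.H22.GS.Targets

/-!
# Theorem (H0), MP_c59857_nt: the entropy chain for changing sequences

The letters of the sequences are the elements of a finite alphabet, which may change from level to
level; the new sequence is a function of the old one and of few labels.
-/

set_option autoImplicit false

namespace Pool.Agent.H28.HB

open Finset Pool.Agent.H93 Pool.Agent.H18.MR Pool.Agent.H93.DE Pool.Agent.H93.ES
  Pool.Agent.H22.GS

/-- the field of the tuples of the letters at the distances `d`, for any alphabet -/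
def tupA {γ : Type} {N R : ℕ} (x : ZMod N → γ) (d : Fin R → ℕ) (n : ZMod N) : Fin R → γ :=
  fun r => x (n + (d r : ZMod N))

/-- the information of the samples of a window of length `2 ^ w` on the residues modulo the primes
of the octaves between `w / 400` and `w / 200`, normalised, for any alphabet -/
noncomputable def infA (c : ℕ) {γ : Type} [Fintype γ] [DecidableEq γ] {N : ℕ} [NeZero N]
    (x : ZMod N → γ) (w : ℕ) : ℝ :=
  ∑ m ∈ Ico (w / 400) (w / 200), avE (2 ^ rhoT c w) (2 ^ (w - rhoT c w)) (fun e =>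
    info (tupA x (pos e)) (2 ^ m) (primorial (2 ^ m)) (pr m)) / (2 ^ rhoT c w * 2 ^ m)

/-- STAg. A tuple of words has at most the entropy of its words. -/
def T_STAg : Prop := ∀ (γ : Type) [Fintype γ] [DecidableEq γ] (N R L M : ℕ) [NeZero N]
  (x : ZMod N → γ) (d : Fin R → ℕ), 0 < M → M ∣ N → hc (tupA x d) L M ≤ R * hc x L M

/-- MNTg. Long words, more primes. -/
def T_MNTg : Prop := ∀ (γ : Type) [Fintype γ] [DecidableEq γ] (N k L M M' : ℕ) [NeZero N]
  (x : ZMod N → γ), 0 < M' → M ∣ M' → M' ∣ N → hc x (k * L) M' ≤ k * hc x L M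

/-- ENDg. The long word is covered by samples. -/
def T_ENDg : Prop := ∀ (γ : Type) [Fintype γ] [DecidableEq γ] (N R D L M : ℕ) [NeZero N]
  (x : ZMod N → γ), 0 < M → M ∣ N → 0 < D → 0 < L → L ∣ D →
  hc x (R * D) M ≤ D / L * avE R D (fun e => hc (tupA x (pos e)) L M) +
    R * L * Real.log (Fintype.card γ)

/-- LEVg. One level: the information of the samples is a difference of entropies. -/
def T_LEVg : Prop := ∀ (γ : Type) [Fintype γ] [DecidableEq γ] (c N w : ℕ) [NeZero N]
  (x : ZMod N → γ), 10 ^ 5 ≤ w → 8 * c ≤ w → primorial (2 ^ (w / 200)) ∣ N →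
  infA c x w ≤ hc x (2 ^ (w / 400)) (primorial (2 ^ (w / 400))) / 2 ^ (w / 400) -
    hc x (2 ^ w) (primorial (2 ^ (w / 200))) / 2 ^ w +
    (1 / 2) ^ (w / 2) * Real.log (Fintype.card γ)

/-- DPI. Data processing: the information of a function of the letters. -/
def T_DPI : Prop := ∀ (γ : Type) [Fintype γ] [DecidableEq γ] (c N w : ℕ) [NeZero N]
  (x : ZMod N → γ) (φ : γ → Bool), infT c (fun n => φ (x n)) w ≤ infA c x w

/-- STPg. A sequence whose words are functions of the words of another sequence and of a label with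
`T` values. -/
def T_STPg : Prop := ∀ (γ δ : Type) [Fintype γ] [DecidableEq γ] [Fintype δ] [DecidableEq δ]
  (N L M T : ℕ) [NeZero N] (x : ZMod N → γ) (y : ZMod N → δ) (l : ZMod N → Fin T)
  (F : (Fin L → γ) → Fin T → Fin L → δ), 0 < M → M ∣ N → (∀ n, wd y L n = F (wd x L n) (l n)) →
  hc y L M ≤ hc x L M + Real.log T

/-- CHD. All levels, changing sequences: the sum of the informations is at most the entropy at the
beginning and the new entropies. The letters of the sequence `x j` are the elements of `γ j`. -/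
def T_CHD : Prop := ∀ (c N K : ℕ) [NeZero N] (γ : ℕ → Type) [∀ j, Fintype (γ j)]
  [∀ j, DecidableEq (γ j)] (T w : ℕ → ℕ) (x : (j : ℕ) → ZMod N → γ j),
  10 ^ 5 + 8 * c ≤ w 0 → (∀ j, j + 1 < K → 400 * w j ≤ w (j + 1)) →
  (∀ j < K, primorial (2 ^ (w j / 200)) ∣ N) →
  (∀ j, j + 1 < K → ∃ (l : ZMod N → Fin (T j))
    (F : (Fin (2 ^ (w (j + 1) / 400)) → γ j) → Fin (T j) →
      Fin (2 ^ (w (j + 1) / 400)) → γ (j + 1)),
    ∀ n, wd (x (j + 1)) (2 ^ (w (j + 1) / 400)) n =
      F (wd (x j) (2 ^ (w (j + 1) / 400)) n) (l n)) →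
  ∑ j ∈ range K, infA c (x j) (w j) ≤
    ent (unif N) (fun n => wd (x 0) (2 ^ (w 0 / 400)) n) / 2 ^ (w 0 / 400) +
    ∑ j ∈ range (K - 1), Real.log (T j) / 2 ^ (w (j + 1) / 400) +
    ∑ j ∈ range K, (1 / 2) ^ (w j / 2) * Real.log (Fintype.card (γ j))

end Pool.Agent.H28.HB
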